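import Mathlib
import Pool.Agent.TH738.NR.Image
import Pool.Agent.TH738.NR.Below

set_option autoImplicit false

/-!
The noncomputable member of the class is `Δ⁰₃`.
-/

namespace Pool.Agent.Y584.NS

open Pool.Agent.TH738.NR
open Nat.Partrec (Code)

/-- at stage `u` there is at most one string above `ρ` -/
def thinAt (ρ : List Bool) (u : ℕ) : Prop :=
  ∀ τ ∈ G u, ∀ τ' ∈ G u, τ.take ρ.length = ρ → τ'.take ρ.length = ρ → τ = τ'

/-- infinitely often there is at most one string above `ρ` -/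
def Bad (ρ : List Bool) : Prop := ∀ s, ∃ u, s ≤ u ∧ thinAt ρ u

lemma pre_iff {ρ τ : List Bool} : ρ <+: τ ↔ τ.take ρ.length = ρ := by
  rw [List.prefix_iff_eq_take]
  exact eq_comm

lemma not_bad {X : ℕ → Bool} (h : Good X) {ρ : List Bool} (hρ : Sb ρ X) : ¬ Bad ρ := by
  intro hb
  apply h.not_computable
  refine Thin.computable h.inP ⟨ρ, hρ, fun s => ?_⟩
  obtain ⟨u, h1, h2⟩ := hb s
  exact ⟨u, h1, fun τ hτ τ' hτ' h3 h4 => h2 τ hτ τ' hτ' (pre_iff.1 h3) (pre_iff.1 h4)⟩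

lemma bad_of_thin {Y : ℕ → Bool} (h : Thin Y) : ∃ ρ, Sb ρ Y ∧ Bad ρ := by
  obtain ⟨ρ, hρ, h⟩ := h
  refine ⟨ρ, hρ, fun s => ?_⟩
  obtain ⟨u, h1, h2⟩ := h s
  exact ⟨u, h1, fun τ hτ τ' hτ' h3 h4 => h2 τ hτ τ' hτ' (pre_iff.2 h3) (pre_iff.2 h4)⟩

theorem cover {X : ℕ → Bool} (h : Good X) (n : ℕ) (c : Bool) (hc : X n ≠ c) :
    ∃ (L : List (List Bool)) (t : ℕ), n < t ∧
      (∀ τ ∈ G t, τ.getD n false = c → ∃ ρ ∈ L, τ.take ρ.length = ρ) ∧ ∀ ρ ∈ L, Bad ρ := by
  classical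
  -- the compact set
  let K0 : Set (ℕ → Bool) := {Z | Z n = c} ∩ {Z | InP Z}
  have hK0 : IsCompact K0 := by
    apply IsClosed.isCompact
    apply IsClosed.inter
    · exact isClosed_eq (continuous_apply n) continuous_const
    · have h1 : {Z : ℕ → Bool | InP Z} = ⋂ t, {Z | (fun σ => σ ∈ G t) (bp Z t)} := by
        ext Z
        simp only [InP, Set.mem_ofPred_eq, Set.mem_iInter]
      rw [h1]
      exact isClosed_iInter fun t => closed_bp t _
  obtain ⟨F, hF⟩ := hK0.elim_finite_subcover (fun ρ : {ρ // Bad ρ} => {Z : ℕ → Bool | Sb ρ.1 Z})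
    (fun ρ => by
      have h1 := closed_bp ρ.1.length (fun σ => ¬ σ = ρ.1)
      have h2 : {Z : ℕ → Bool | Sb ρ.1 Z} = {Z | (fun σ => ¬ σ = ρ.1) (bp Z ρ.1.length)}ᶜ := by
        ext Z
        simp only [Sb, Set.mem_ofPred_eq, Set.mem_compl_iff, not_not]
      rw [h2]
      exact h1.isOpen_compl)
    (by
      rintro Z ⟨hZ1, hZ2⟩
      have hne : Z ≠ X := by
        rintro rfl
        exact hc hZ1
      obtain ⟨ρ, h1, h2⟩ := bad_of_thin (h.thin Z hZ2 hne)
      exact Set.mem_iUnion.2 ⟨⟨ρ, h2⟩, h1⟩)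
  let L : List (List Bool) := F.toList.map Subtype.val
  have hL : ∀ ρ ∈ L, Bad ρ := by
    intro ρ hρ
    obtain ⟨ρ', -, rfl⟩ := List.mem_map.1 hρ
    exact ρ'.2
  have hcov : ∀ Z ∈ K0, ∃ ρ ∈ L, Sb ρ Z := by
    intro Z hZ
    obtain ⟨ρ, hρ⟩ := Set.mem_iUnion.1 (hF hZ)
    obtain ⟨hρF, hρZ⟩ := Set.mem_iUnion.1 hρ
    exact ⟨ρ.1, List.mem_map.2 ⟨ρ, Finset.mem_toList.2 hρF, rfl⟩, hρZ⟩
  by_contra hcon
  push Not at hcon
  have hstage : ∀ t, n < t → ∃ τ ∈ G t, τ.getD n false = c ∧ ∀ ρ ∈ L, ¬ ρ <+: τ := by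
    intro t ht
    by_contra hno
    push Not at hno
    obtain ⟨ρ, hρ, hb⟩ := hcon L t ht (fun τ hτ hτc => by
      obtain ⟨ρ, h1, h2⟩ := hno τ hτ hτc
      exact ⟨ρ, h1, pre_iff.1 h2⟩)
    exact hb (hL ρ hρ)
  let C : ℕ → Set (ℕ → Bool) := fun k =>
    {Z | (fun σ => σ ∈ G (k + n + 1) ∧ σ.getD n false = c ∧ ∀ ρ ∈ L, ¬ ρ <+: σ)
      (bp Z (k + n + 1))}
  have hC : (⋂ k, C k).Nonempty := by
    refine IsCompact.nonempty_iInter_of_sequence_nonempty_isCompact_isClosed C ?_ ?_ ?_ ?_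
    · rintro k Z ⟨h1, h2, h3⟩
      refine ⟨?_, ?_, ?_⟩
      · have h4 := G_take (show k + n + 1 ≤ k + 1 + n + 1 by omega) h1
        rwa [bp_take Z (by omega)] at h4
      · rw [bp_get Z (by omega)] at h2 ⊢
        exact h2
      · intro ρ hρ h4
        exact h3 ρ hρ (h4.trans (bp_pre Z (by omega)))
    · intro k
      obtain ⟨τ, h1, h2⟩ := hstage (k + n + 1) (by omega)
      refine ⟨fun i => τ.getD i false, ?_⟩
      have h3 := bp_getD τ
      rw [G_len h1] at h3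
      change _ ∧ _ ∧ _
      rw [h3]
      exact ⟨h1, h2⟩
    · exact (closed_bp (0 + n + 1) (fun σ => σ ∈ G (0 + n + 1) ∧ σ.getD n false = c ∧
        ∀ ρ ∈ L, ¬ ρ <+: σ)).isCompact
    · intro k
      exact closed_bp (k + n + 1) (fun σ => σ ∈ G (k + n + 1) ∧ σ.getD n false = c ∧
        ∀ ρ ∈ L, ¬ ρ <+: σ)
  obtain ⟨Z, hZ⟩ := hC
  rw [Set.mem_iInter] at hZ
  have hZP : InP Z := InP_of fun s => ⟨s + n + 1, by omega, (hZ s).1⟩
  have hZn : Z n = c := by
    have h1 := (hZ 0).2.1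
    rwa [bp_get Z (by omega)] at h1
  obtain ⟨ρ, h1, h2⟩ := hcov Z ⟨hZn, hZP⟩
  refine (hZ ρ.length).2.2 ρ h1 ((Sb_iff (by omega)).1 h2)

/-! the matrix -/

def R2 (τ' : List Bool) (q : List Bool × (List Bool × ℕ)) : Prop :=
  q.1.take q.2.1.length = q.2.1 → τ'.take q.2.1.length = q.2.1 → q.1 = τ'

lemma R2_p : PrimrecRel R2 := by
  have h1 : PrimrecPred (fun z : List Bool × (List Bool × (List Bool × ℕ)) =>
      z.2.1.take z.2.2.1.length = z.2.2.1) :=
    Primrec.eq.comp (Primrec.list_take.comp (Primrec.list_length.comp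
      (Primrec.fst.comp (Primrec.snd.comp Primrec.snd))) (Primrec.fst.comp Primrec.snd))
      (Primrec.fst.comp (Primrec.snd.comp Primrec.snd))
  have h2 : PrimrecPred (fun z : List Bool × (List Bool × (List Bool × ℕ)) =>
      z.1.take z.2.2.1.length = z.2.2.1) :=
    Primrec.eq.comp (Primrec.list_take.comp (Primrec.list_length.comp
      (Primrec.fst.comp (Primrec.snd.comp Primrec.snd))) Primrec.fst)
      (Primrec.fst.comp (Primrec.snd.comp Primrec.snd))
  have h3 : PrimrecPred (fun z : List Bool × (List Bool × (List Bool × ℕ)) => z.2.1 = z.1) :=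
    Primrec.eq.comp (Primrec.fst.comp Primrec.snd) Primrec.fst
  refine (PrimrecPred.or (PrimrecPred.not h1) (PrimrecPred.or (PrimrecPred.not h2) h3)).of_eq ?_
  intro z
  unfold R2
  tauto

lemma thinAt_p : PrimrecPred (fun q : List Bool × ℕ => thinAt q.1 q.2) := by
  have h1 : PrimrecPred (fun z : List Bool × (List Bool × ℕ) => ∀ τ' ∈ G z.2.2, R2 τ' z) :=
    R2_p.forall_mem_list.comp (G_p.comp (Primrec.snd.comp Primrec.snd)) Primrec.id
  have h2 : PrimrecRel (fun (τ : List Bool) (q : List Bool × ℕ) =>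
      ∀ τ' ∈ G q.2, R2 τ' (τ, q)) := h1
  have h3 : PrimrecPred (fun q : List Bool × ℕ => ∀ τ ∈ G q.2, ∀ τ' ∈ G q.2, R2 τ' (τ, q)) :=
    h2.forall_mem_list.comp (G_p.comp Primrec.snd) Primrec.id
  exact h3.of_eq fun q => Iff.rfl

/-- the cover condition -/
def cov (b : Bool) (n : ℕ) (L : List (List Bool)) (t : ℕ) : Prop :=
  ∀ τ ∈ G t, (¬ τ.getD n false = b) ∨ ∃ ρ ∈ L, τ.take ρ.length = ρ

lemma cov_p (b : Bool) : PrimrecPred (fun q : ℕ × (List (List Bool) × ℕ) =>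
    cov b q.1 q.2.1 q.2.2) := by
  have h1 : PrimrecRel (fun (ρ : List Bool) (τ : List Bool) => τ.take ρ.length = ρ) :=
    Primrec.eq.comp (Primrec.list_take.comp (Primrec.list_length.comp Primrec.fst) Primrec.snd)
      Primrec.fst
  have h2 : PrimrecPred (fun z : List Bool × (ℕ × (List (List Bool) × ℕ)) =>
      ∃ ρ ∈ z.2.2.1, z.1.take ρ.length = ρ) :=
    h1.exists_mem_list.comp (Primrec.fst.comp (Primrec.snd.comp Primrec.snd)) Primrec.fst
  have h3 : PrimrecPred (fun z : List Bool × (ℕ × (List (List Bool) × ℕ)) =>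
      z.1.getD z.2.1 false = b) :=
    Primrec.eq.comp ((Primrec.list_getD false).comp Primrec.fst (Primrec.fst.comp Primrec.snd))
      (Primrec.const b)
  have h4 : PrimrecRel (fun (τ : List Bool) (q : ℕ × (List (List Bool) × ℕ)) =>
      (¬ τ.getD q.1 false = b) ∨ ∃ ρ ∈ q.2.1, τ.take ρ.length = ρ) :=
    PrimrecPred.or (PrimrecPred.not h3) h2
  exact h4.forall_mem_list.comp (G_p.comp (Primrec.snd.comp Primrec.snd)) Primrec.id

/-- decoding of pairs -/
def dec (w : ℕ) : List (List Bool) × ℕ :=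
  (Encodable.decode (α := List (List Bool) × ℕ) w).getD ([], 0)

lemma dec_p : Primrec dec :=
  Primrec.option_getD.comp Primrec.decode (Primrec.const ([], 0))

lemma dec_encode (q : List (List Bool) × ℕ) : dec (Encodable.encode q) = q := by
  unfold dec
  rw [Encodable.encodek]
  rfl

/-- the matrix: `X n = b` iff for some `w`, all `s` and some `u` -/
def Mat (b : Bool) (q : ℕ × (ℕ × (ℕ × ℕ))) : Prop :=
  (q.1 < (dec q.2.1).2 ∧
    cov (!b) q.1 (dec q.2.1).1
      (dec q.2.1).2) ∧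
  ((¬ q.2.2.1.unpair.1 < (dec q.2.1).1.length) ∨
    (q.2.2.1.unpair.2 ≤ q.2.2.2 ∧
      thinAt ((dec q.2.1).1.getD q.2.2.1.unpair.1 [])
        q.2.2.2))

lemma Mat_p (b : Bool) : PrimrecPred (Mat b) := by
  have w : Primrec (fun q : ℕ × (ℕ × (ℕ × ℕ)) =>
      dec q.2.1) :=
    dec_p.comp (Primrec.fst.comp Primrec.snd)
  have s : Primrec (fun q : ℕ × (ℕ × (ℕ × ℕ)) => q.2.2.1.unpair) :=
    Primrec.unpair.comp (Primrec.fst.comp (Primrec.snd.comp Primrec.snd))
  have u : Primrec (fun q : ℕ × (ℕ × (ℕ × ℕ)) => q.2.2.2) :=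
    Primrec.snd.comp (Primrec.snd.comp Primrec.snd)
  refine PrimrecPred.and (PrimrecPred.and ?_ ?_) (PrimrecPred.or (PrimrecPred.not ?_)
    (PrimrecPred.and ?_ ?_))
  · exact Primrec.nat_lt.comp Primrec.fst (Primrec.snd.comp w)
  · exact (cov_p (!b)).comp (Primrec.fst.pair w)
  · exact Primrec.nat_lt.comp (Primrec.fst.comp s) (Primrec.list_length.comp (Primrec.fst.comp w))
  · exact Primrec.nat_le.comp (Primrec.snd.comp s) u
  · exact thinAt_p.comp (((Primrec.list_getD []).comp (Primrec.fst.comp w)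
      (Primrec.fst.comp s)).pair u)

theorem delta {X : ℕ → Bool} (h : Good X) (b : Bool) (n : ℕ) :
    X n = b ↔ ∃ w, ∀ s, ∃ u, Mat b (n, (w, (s, u))) := by
  constructor
  · intro hX
    obtain ⟨L, t, h1, h2, h3⟩ := cover h n (!b) (by rw [hX]; cases b <;> simp)
    refine ⟨Encodable.encode (L, t), fun s => ?_⟩
    by_cases hs : s.unpair.1 < L.length
    · obtain ⟨u, h4, h5⟩ := h3 (L.getD s.unpair.1 []) (by
        rw [List.getD_eq_getElem _ _ hs]
        exact List.getElem_mem hs) s.unpair.2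
      refine ⟨u, ?_⟩
      simp only [Mat, dec_encode]
      refine ⟨⟨h1, fun τ hτ => ?_⟩, Or.inr ⟨h4, h5⟩⟩
      by_cases hc : τ.getD n false = !b
      · exact Or.inr (h2 τ hτ hc)
      · exact Or.inl hc
    · refine ⟨0, ?_⟩
      simp only [Mat, dec_encode]
      refine ⟨⟨h1, fun τ hτ => ?_⟩, Or.inl hs⟩
      by_cases hc : τ.getD n false = !b
      · exact Or.inr (h2 τ hτ hc)
      · exact Or.inl hc
  · rintro ⟨w, hw⟩
    by_contra hne
    have hX : X n = !b := by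
      revert hne
      cases X n <;> cases b <;> simp
    obtain ⟨u0, ⟨h1, h2⟩, -⟩ := hw 0
    simp only at h1 h2
    rcases h2 _ (h.inP _) with h3 | ⟨ρ, hρ, h3⟩
    · rw [bp_get X h1] at h3
      exact h3 hX
    · have hlen : ρ.length ≤ (dec w).2 := by
        have h4 := congrArg List.length h3
        rw [List.length_take, bp_length] at h4
        omega
      have hSb : Sb ρ X := (Sb_iff hlen).2 (pre_iff.2 h3)
      apply not_bad h hSb
      intro s
      obtain ⟨i, hi, rfl⟩ := List.getElem_of_mem hρ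
      obtain ⟨u, -, h5⟩ := hw (Nat.pair i s)
      simp only [Nat.unpair_pair] at h5
      rcases h5 with h5 | ⟨h5, h6⟩
      · exact absurd hi h5
      · rw [List.getD_eq_getElem _ _ hi] at h6
        exact ⟨u, h5, h6⟩

end Pool.Agent.Y584.NS
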